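import Pool.Agent.Helper302.JumpMain

open FirstOrder FirstOrder.Language

namespace Pool.Agent.Results.MP_f36693_lc.NoTheoryDegree

/-- There is a set `X` of degree at most `0^(ω)` such that no complete theory in a computable signature
with a computable model (in particular no countably categorical one) has the Turing degree of `X`. -/
theorem result : ∃ X : Set ℕ, Helper302.Jump.SetLE X Helper302.Jump.omegaJump ∧
    ∀ (L : FirstOrder.Language.{0, 0}) [Encodable (Σ n, L.Functions n)] [Encodable (Σ n, L.Relations n)],
      Helper302.Jump.ComputableSignature L → ∀ T : L.Theory, T.IsMaximal → Helper302.Jump.HasComputableModel T →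
        ¬ Helper302.Jump.SameDegree (Helper302.Jump.theoryCodes T) X :=
  Helper302.Jump.main_theorem

end Pool.Agent.Results.MP_f36693_lc.NoTheoryDegree
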